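import Pool.Agent.NBT.StmtsA

/-!
# NBT row CMX: choice of the dimensions of the boxes
-/

set_option autoImplicit false

open Matrix Filter Topology

namespace Pool.Agent.NBT.H65

open Pool.Agent.PFS Pool.Agent.PFJ Pool.Agent.NBT

/-- the members of `FF` which have `I`-boxes of dimension at least `c I` -/
def Tc {n K : ℕ} (C : Set (V n)) (FF : (Fin K → V n) → Prop) (c : Finset (Fin K) → ℕ)
    (w : Fin K → V n) : Prop :=
  FF w ∧ ∀ I, ∃ L : Submodule ℝ (V n), IB C w I L ∧ c I ≤ Module.finrank ℝ L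

theorem cmx (hIBF : IbfStmt) (hIBI : IbiStmt) (hIBL : IblStmt) (hIZF : IzfStmt) : CmxStmt := by
  classical
  intro n C Γ Γ₀ K hC hK3 hmc FF hF w0 c0 hw0 hb0
  have hP : PCone C := hC.toPCone
  have hfam : ∀ c : Finset (Fin K) → ℕ, FAM C Γ Γ₀ (Tc C FF c) := by
    intro c
    refine ⟨hF.sub, fun w hw => hF.pes w hw.1, ?_, ?_, ?_, fun x hx => hF.cpt x fun m => (hx m).1⟩
    · intro w hw g hg
      refine ⟨hF.inv w hw.1 g hg, fun I => ?_⟩
      obtain ⟨L, hL, hc⟩ := hw.2 I
      have h1 := (hIBI n C Γ hC K w (fun i => (hF.pes w hw.1).1.cl i)).2.2 g (hF.sub hg) 1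
        one_pos I L hL
      simp only [one_smul] at h1
      refine ⟨img g L, h1, ?_⟩
      rw [(Pool.Agent.PFJ.H32.img n).1 g L]
      exact hc
    · intro w hw r hr
      refine ⟨hF.scl w hw.1 r hr, fun I => ?_⟩
      obtain ⟨L, hL, hc⟩ := hw.2 I
      exact ⟨L, ((hIBF n C hP K w (hF.pes w hw.1).1).1 I L hL).2.2.2 r hr, hc⟩
    · intro x w hx hlim hsum
      have hFw : FF w := hF.cld x w (fun m => (hx m).1) hlim hsum
      refine ⟨hFw, fun I => ?_⟩
      choose L hL hLc using fun m => (hx m).2 I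
      obtain ⟨φ, L', hφ, hlimS, hfr⟩ := Pool.Agent.PFJ.H69.lsc n L
      refine ⟨L', hIBL n C hP K (fun m => x (φ m)) w I (fun m => L (φ m)) L'
        (fun m => (hF.pes _ (hx (φ m)).1).1) (hF.pes w hFw).1
        (fun l => (hlim l).comp hφ.tendsto_atTop) (fun m => hL (φ m)) hlimS, ?_⟩
      rw [← hfr 0]
      exact hLc (φ 0)
  let P : ℕ → Prop := fun N => ∃ c : Finset (Fin K) → ℕ, (∀ I, c0 I ≤ c I) ∧
    (∃ w, Tc C FF c w) ∧ ∑ I, c I = N
  have hex : ∃ N, P N := ⟨_, c0, fun _ => le_refl _, ⟨w0, hw0, hb0⟩, rfl⟩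
  have hbd : ∀ N, P N → N ≤ ∑ _I : Finset (Fin K), n := by
    rintro N ⟨c, -, ⟨w, hw⟩, rfl⟩
    refine Finset.sum_le_sum fun I _ => ?_
    obtain ⟨L, -, hL⟩ := hw.2 I
    refine hL.trans ((Submodule.finrank_le L).trans ?_)
    simp
  obtain ⟨N, hN, hmax⟩ : ∃ N, P N ∧ ∀ M, P M → M ≤ N := by
    obtain ⟨N0, h0⟩ := hex
    exact ⟨Nat.findGreatest P _, Nat.findGreatest_spec (hbd _ h0) h0,
      fun M hM => Nat.le_findGreatest (hbd _ hM) hM⟩
  obtain ⟨c, hc0, ⟨w1, hw1⟩, hsum⟩ := hN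
  have key : ∀ w, Tc C FF c w → ∀ I, IB C w I (BI C w I) ∧
      Module.finrank ℝ (BI C w I) = c I := by
    intro w hw I
    obtain ⟨L, hL, hLc⟩ := hw.2 I
    have hle : L ≤ BI C w I := ((hIBF n C hP K w (hF.pes w hw.1).1).1 I L hL).2.1
    have hLd : Module.finrank ℝ L ≤ Module.finrank ℝ (BI C w I) := Submodule.finrank_mono hle
    have hd : Module.finrank ℝ (BI C w I) ≤ c I := by
      by_contra hlt
      push Not at hlt
      obtain ⟨w', hw', ⟨L1, hL1, hL1d⟩, htr⟩ := hIZF n C Γ Γ₀ K hC (by omega) FF hF w hw.1 I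
      have hle' : ∀ J, c J ≤ Function.update c I (Module.finrank ℝ (BI C w I)) J := by
        intro J
        by_cases hJ : J = I
        · subst hJ
          rw [Function.update_self]
          exact hlt.le
        · rw [Function.update_of_ne hJ]
      have hPN : P (∑ J, Function.update c I (Module.finrank ℝ (BI C w I)) J) := by
        refine ⟨_, fun J => (hc0 J).trans (hle' J), ⟨w', hw', fun J => ?_⟩, rfl⟩
        by_cases hJ : J = I
        · subst hJ
          rw [Function.update_self]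
          exact ⟨L1, hL1, hL1d.ge⟩
        · rw [Function.update_of_ne hJ]
          obtain ⟨L2, hL2, hL2c⟩ := hw.2 J
          obtain ⟨L3, hL3, hL3c⟩ := htr J L2 hL2
          exact ⟨L3, hL3, by rw [hL3c]; exact hL2c⟩
      have hbig : ∑ J, c J < ∑ J, Function.update c I (Module.finrank ℝ (BI C w I)) J := by
        refine Finset.sum_lt_sum (fun J _ => hle' J) ⟨I, Finset.mem_univ _, ?_⟩
        rw [Function.update_self]
        exact hlt
      have := hmax _ hPN
      omega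
    have heq : L = BI C w I :=
      Submodule.eq_of_le_of_finrank_le hle (hd.trans hLc)
    refine ⟨heq ▸ hL, le_antisymm hd (hLc.trans hLd)⟩
  refine ⟨Tc C FF c, c, ?_, fun w hw => hw.1, ⟨w1, hw1⟩, hc0⟩
  exact { toFAM := hfam c, cc := hC, three := hK3, maxc := hmc
          box := fun w hw I => (key w hw I).1, dim := fun w hw I => (key w hw I).2 }

end Pool.Agent.NBT.H65
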